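import Pool.Agent.Y217.HK.Inst

/-!
# Project HK, job HK-11: leftmost branches
-/

set_option autoImplicit false

namespace Pool.Agent.Y461.HK.Branch

open MeasureTheory Filter Topology Set
open Pool.Agent.Y217.HK

/-- the initial segments of the leftmost branch -/
noncomputable def path (S : Set (List ℕ)) : ℕ → List ℕ
  | 0 => []
  | (n + 1) => path S n ++ [sInf {k : ℕ | path S n ++ [k] ∈ S}]

/-- the leftmost branch -/
noncomputable def br (S : Set (List ℕ)) (n : ℕ) : ℕ := sInf {k : ℕ | path S n ++ [k] ∈ S}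

theorem path_succ (S : Set (List ℕ)) (n : ℕ) : path S (n + 1) = path S n ++ [br S n] := rfl

theorem ofFn_br (S : Set (List ℕ)) (n : ℕ) : (List.ofFn fun i : Fin n => br S i) = path S n := by
  induction n with
  | zero => simp [path]
  | succ n ih =>
    rw [List.ofFn_succ', List.concat_eq_append, path_succ, ← ih]
    rfl

theorem path_mem (S : Set (List ℕ)) (h0 : [] ∈ S) (h1 : ∀ s ∈ S, ∃ n : ℕ, s ++ [n] ∈ S) (n : ℕ) :
    path S n ∈ S := by
  induction n with
  | zero => exact h0
  | succ n ih =>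
    have h : {k : ℕ | path S n ++ [k] ∈ S}.Nonempty := h1 _ ih
    exact Nat.sInf_mem h

theorem meas_step {A : Type} [MeasurableSpace A] (T : A → Set (List ℕ))
    (hT : ∀ s : List ℕ, MeasurableSet {a | s ∈ T a}) (h0 : ∀ a, [] ∈ T a)
    (h1 : ∀ a, ∀ s ∈ T a, ∃ n : ℕ, s ++ [n] ∈ T a) (n : ℕ)
    (hn : ∀ s, MeasurableSet {a | path (T a) n = s}) (t : List ℕ) (k : ℕ) :
    MeasurableSet {a | path (T a) n = t ∧ br (T a) n = k} := by
  have h : {a | path (T a) n = t ∧ br (T a) n = k} = {a | path (T a) n = t} ∩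
      ({a | t ++ [k] ∈ T a} ∩ ⋂ j : Fin k, {a | t ++ [(j : ℕ)] ∈ T a}ᶜ) := by
    ext a
    simp only [mem_ofPred_eq, mem_inter_iff, mem_iInter, mem_compl_iff]
    constructor
    · rintro ⟨rfl, rfl⟩
      refine ⟨rfl, ?_, fun j hj => ?_⟩
      · exact Nat.sInf_mem (h1 a _ (path_mem (T a) (h0 a) (h1 a) n))
      · exact Nat.notMem_of_lt_sInf j.2 hj
    · rintro ⟨rfl, h2, h3⟩
      refine ⟨rfl, le_antisymm (Nat.sInf_le h2) ?_⟩
      by_contra hlt
      push Not at hlt
      have h4 : br (T a) n ∈ {k : ℕ | path (T a) n ++ [k] ∈ T a} := Nat.sInf_mem ⟨k, h2⟩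
      exact h3 ⟨br (T a) n, hlt⟩ h4
  rw [h]
  exact (hn t).inter ((hT _).inter (MeasurableSet.iInter fun j => (hT _).compl))

theorem meas_path {A : Type} [MeasurableSpace A] (T : A → Set (List ℕ))
    (hT : ∀ s : List ℕ, MeasurableSet {a | s ∈ T a}) (h0 : ∀ a, [] ∈ T a)
    (h1 : ∀ a, ∀ s ∈ T a, ∃ n : ℕ, s ++ [n] ∈ T a) (n : ℕ) :
    ∀ s, MeasurableSet {a | path (T a) n = s} := by
  induction n with
  | zero =>
    intro s
    exact MeasurableSet.const (([] : List ℕ) = s)
  | succ n ih =>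
    intro s
    have h : {a | path (T a) (n + 1) = s} =
        ⋃ t : List ℕ, ⋃ k : ℕ, ({a | path (T a) n = t ∧ br (T a) n = k} ∩ {_a | t ++ [k] = s}) := by
      ext a
      simp only [mem_ofPred_eq, mem_iUnion, mem_inter_iff]
      constructor
      · intro ha
        exact ⟨_, _, ⟨rfl, rfl⟩, ha⟩
      · rintro ⟨t, k, ⟨rfl, rfl⟩, ha⟩
        exact ha
    rw [h]
    exact MeasurableSet.iUnion fun t => MeasurableSet.iUnion fun k =>
      (meas_step T hT h0 h1 n ih t k).inter (MeasurableSet.const _)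

theorem branch : JBranch := by
  intro A _ T hT h0 h1
  refine ⟨fun a => br (T a), ?_, fun a n => ?_, fun a a' h => congrArg br h⟩
  · rw [measurable_pi_iff]
    intro n
    refine measurable_to_countable' fun k => ?_
    have h : (fun a => br (T a) n) ⁻¹' {k} =
        ⋃ t : List ℕ, {a | path (T a) n = t ∧ br (T a) n = k} := by
      ext a
      simp only [mem_preimage, mem_singleton_iff, mem_iUnion, mem_ofPred_eq]
      constructor
      · intro h; exact ⟨_, rfl, h⟩
      · rintro ⟨t, -, h⟩; exact h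
    rw [h]
    exact MeasurableSet.iUnion fun t => meas_step T hT h0 h1 n (meas_path T hT h0 h1 n) t k
  · rw [ofFn_br]
    exact path_mem (T a) (h0 a) (h1 a) n

end Pool.Agent.Y461.HK.Branch
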