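import Pool.Agent.Y217.HK.Inst

/-!
# Project HK, job HK-10: `E_1` does not reduce to `Rel b` on a residual set
-/

set_option autoImplicit false

namespace Pool.Agent.Y461.HK

open MeasureTheory Filter Topology Set
open Pool.Agent.Y217.HK

theorem P_pos (n : ℕ) : 1 ≤ P n := by
  induction n with
  | zero => exact le_refl _
  | succ n ih =>
    have h : P (n + 1) = P n * ((2 * P n) ^ (2 * (n + 1)) + 1) := rfl
    rw [h]
    exact Nat.one_le_iff_ne_zero.2 (Nat.mul_ne_zero (by omega) (by omega))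

theorem L_pos (n : ℕ) : 1 ≤ L n := by
  have h : L n = (2 * P n) ^ (2 * (n + 1)) := rfl
  rw [h]
  exact Nat.one_le_pow _ _ (by have := P_pos n; omega)

theorem ds_self (x : Z) (n : ℕ) : ds x x n = 0 := by
  unfold ds; omega

theorem ds_eq {x y : Z} {n : ℕ} (h : x n = y n) : ds x y n = 0 := by
  unfold ds; rw [h]; omega

theorem ds_tri (x y z : Z) (n : ℕ) : ds x z n ≤ ds x y n + ds y z n := by
  unfold ds; omega

theorem ds_mul (x y z : Z) (n : ℕ) : 1 + ds x z n ≤ (1 + ds x y n) * (1 + ds y z n) := by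
  have h := ds_tri x y z n
  nlinarith [Nat.zero_le (ds x y n * ds y z n)]

theorem pw (a c d l e : ℕ) (hl : 1 ≤ l) (h : a ≤ c * d) (hc : c ^ (4 * e) ≤ l)
    (hd : d ^ (4 * e) ≤ l) : a ^ e ≤ l := by
  by_contra hn
  push Not at hn
  have h1 : a ^ (4 * e) ≤ l * l := by
    calc a ^ (4 * e) ≤ (c * d) ^ (4 * e) := Nat.pow_le_pow_left h _
      _ = c ^ (4 * e) * d ^ (4 * e) := mul_pow _ _ _
      _ ≤ l * l := Nat.mul_le_mul hc hd
  have h2 : a ^ (4 * e) = (a ^ e) ^ 4 := by rw [← pow_mul, mul_comm]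
  rw [h2] at h1
  have h3 : l ^ 4 < (a ^ e) ^ 4 := Nat.pow_lt_pow_left hn (by norm_num)
  have h4 : l * l ≤ l ^ 4 := by
    calc l * l = l ^ 2 := (sq l).symm
      _ ≤ l ^ 4 := Nat.pow_le_pow_right hl (by norm_num)
  omega

theorem pw2 (a c d l e : ℕ) (h : a ≤ c * d) (hc : c ^ (2 * e) ≤ l)
    (hd : d ^ (2 * e) ≤ l) : a ^ e ≤ l := by
  by_contra hn
  push Not at hn
  have h1 : a ^ (2 * e) ≤ l * l := by
    calc a ^ (2 * e) ≤ (c * d) ^ (2 * e) := Nat.pow_le_pow_left h _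
      _ = c ^ (2 * e) * d ^ (2 * e) := mul_pow _ _ _
      _ ≤ l * l := Nat.mul_le_mul hc hd
  have h2 : a ^ (2 * e) = (a ^ e) ^ 2 := by rw [← pow_mul, mul_comm]
  rw [h2] at h1
  have h3 : l ^ 2 < (a ^ e) ^ 2 := Nat.pow_lt_pow_left hn (by norm_num)
  nlinarith

/-- agreement on the square of side `r` -/
def Ag (r : ℕ) (w x : Om) : Prop := ∀ i, i < r → ∀ j, j < r → w i j = x i j

theorem nb1 (U : Set (ℕ → Bool)) (hU : IsOpen U) (x : ℕ → Bool) (hx : x ∈ U) :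
    ∃ r : ℕ, ∀ w : ℕ → Bool, (∀ j, j < r → w j = x j) → w ∈ U := by
  obtain ⟨I, u, hu, hs⟩ := isOpen_pi_iff.1 hU x hx
  refine ⟨I.sup id + 1, fun w hw => hs ?_⟩
  intro i hi
  have hi' : i ≤ I.sup id := Finset.le_sup (f := id) hi
  rw [hw i (by omega)]
  exact (hu i hi).2

theorem nb2 (U : Set Om) (hU : IsOpen U) (x : Om) (hx : x ∈ U) :
    ∃ r : ℕ, ∀ w : Om, Ag r w x → w ∈ U := by
  classical
  obtain ⟨I, u, hu, hs⟩ := isOpen_pi_iff.1 hU x hx
  have h1 : ∀ i : ℕ, ∃ r : ℕ, i ∈ I → ∀ w : ℕ → Bool, (∀ j, j < r → w j = x i j) → w ∈ u i := by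
    intro i
    by_cases hi : i ∈ I
    · obtain ⟨r, hr⟩ := nb1 (u i) (hu i hi).1 (x i) (hu i hi).2
      exact ⟨r, fun _ => hr⟩
    · exact ⟨0, fun h => absurd h hi⟩
  choose r hr using h1
  refine ⟨I.sup id + 1 + I.sup r, fun w hw => hs ?_⟩
  intro i hi
  have hi' : i ≤ I.sup id := Finset.le_sup (f := id) hi
  have hi2 : r i ≤ I.sup r := Finset.le_sup (f := r) hi
  exact hr i hi (w i) fun j hj => hw i (by omega) j (by omega)

theorem Ag.mono {r s : ℕ} (h : r ≤ s) {w x : Om} (ha : Ag s w x) : Ag r w x :=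
  fun i hi j hj => ha i (by omega) j (by omega)

/-- The set on which all coordinates of `ψ` are locally constant. -/
theorem exE1 (ψ : Om → Z) (hψ : Measurable ψ) :
    ∃ E ∈ residual Om, ∀ x ∈ E, ∀ M : ℕ, ∃ r : ℕ, ∀ w ∈ E, Ag r w x →
      ∀ m, m < M → ψ w m = ψ x m := by
  have hm : ∀ (m : ℕ) (v : Fin (L m + 1)), ∃ O : Set Om, IsOpen O ∧
      ∀ᶠ x in residual Om, (ψ x m = v ↔ x ∈ O) := by
    intro m v
    have h1 : MeasurableSet {x : Om | ψ x m = v} := by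
      have h2 : Measurable fun x : Om => ψ x m := (measurable_pi_apply m).comp hψ
      exact h2 (measurableSet_singleton v)
    obtain ⟨O, hO, hE⟩ := h1.baireMeasurableSet.residualEq_isOpen
    refine ⟨O, hO, ?_⟩
    filter_upwards [hE] with x hx
    exact iff_of_eq hx
  choose O hO hE using hm
  refine ⟨{x | ∀ (m : ℕ) (v : Fin (L m + 1)), ψ x m = v ↔ x ∈ O m v}, ?_, ?_⟩
  · have h1 : ∀ᶠ x in residual Om, ∀ (m : ℕ) (v : Fin (L m + 1)), (ψ x m = v ↔ x ∈ O m v) := by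
      rw [eventually_countable_forall]
      intro m
      rw [eventually_countable_forall]
      exact hE m
    exact h1
  · intro x hx M
    have h1 : ∀ m : ℕ, ∃ r : ℕ, ∀ w : Om, Ag r w x → w ∈ O m (ψ x m) := fun m =>
      nb2 _ (hO m _) x ((hx m _).1 rfl)
    choose r hr using h1
    refine ⟨(Finset.range M).sup r, fun w hw ha m hm => ?_⟩
    have h2 : r m ≤ (Finset.range M).sup r := Finset.le_sup (f := r) (Finset.mem_range.2 hm)
    exact (hw m _).2 (hr m w (ha.mono h2))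

theorem exU (D : Set Om) (hD : D ∈ residual Om) :
    ∃ U : ℕ → Set Om, (∀ n, IsOpen (U n)) ∧ (⋂ n, U n) ⊆ D ∧ (⋂ n, U n) ∈ residual Om := by
  obtain ⟨t, ht, hG, hd⟩ := mem_residual.1 hD
  obtain ⟨U, hU, rfl⟩ := hG.eq_iInter_nat
  exact ⟨U, hU, ht, residual_of_dense_Gδ hG hd⟩

theorem exg (S : Set (ℕ → Bool)) (hS : S ∈ residual (ℕ → Bool)) (N : ℕ) :
    ∃ g ∈ S, (∀ j, j < N → g j = false) ∧ g N = true := by
  have hd : Dense S := dense_of_mem_residual hS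
  have ho : IsOpen (Set.pi (↑(Finset.range (N + 1))) fun j : ℕ => ({decide (j = N)} : Set Bool)) :=
    isOpen_set_pi (Finset.finite_toSet _) fun j _ => isOpen_discrete _
  obtain ⟨g, hg, hgS⟩ := hd.inter_open_nonempty _ ho ⟨fun j => decide (j = N), by
    intro j _; exact rfl⟩
  have h1 : ∀ j, j < N + 1 → g j = decide (j = N) := fun j hj =>
    hg j (by simpa using hj)
  refine ⟨g, hgS, fun j hj => ?_, ?_⟩
  · rw [h1 j (by omega)]
    simpa using (by omega : j ≠ N)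
  · rw [h1 N (by omega)]
    simp

theorem e1 (_hR : JRel) (hCl : JCl) (hQ : JQ) : JE1 := by
  intro b ψ hψ D hD hiff
  obtain ⟨E, hE, hEc⟩ := exE1 ψ hψ
  have hq := hQ b ψ hψ D hD fun x hx y hy h => (hiff x hx y hy).1 h
  have hq1 : ∀ᶠ x in residual Om, ∀ k : ℕ, ∃ N M : ℕ, ∀ᶠ g in residual (ℕ → Bool),
      (∀ j, j < N → g j = false) →
        ∀ m, M ≤ m → m ∈ b → (1 + ds (ψ x) (ψ (addRow k g x)) m) ^ (4 * 4 ^ k) ≤ L m := by
    rw [eventually_countable_forall]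
    exact fun k => hq k (4 * 4 ^ k)
  obtain ⟨S, hS⟩ : ∃ S : Set Om, S = {x : Om | ∀ k : ℕ, ∃ N M : ℕ,
      ∀ᶠ g in residual (ℕ → Bool), (∀ j, j < N → g j = false) →
        ∀ m, M ≤ m → m ∈ b → (1 + ds (ψ x) (ψ (addRow k g x)) m) ^ (4 * 4 ^ k) ≤ L m} := ⟨_, rfl⟩
  have hq2 : S ∈ residual Om := by rw [hS]; exact hq1
  obtain ⟨U, hU, hUs, hUr⟩ := exU (D ∩ (E ∩ S)) (inter_mem hD (inter_mem hE hq2))
  rw [hS] at hUs
  obtain ⟨D', hD's, hD'r, hD'c⟩ := hCl _ hUr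
  -- one step
  have step : ∀ (k ρ : ℕ) (x : Om), x ∈ D' → ∃ (r M : ℕ) (g : ℕ → Bool), ρ ≤ r ∧ k ≤ M ∧
      (∀ w, Ag r w x → w ∈ U k) ∧ (∀ w ∈ E, Ag r w x → ∀ m, m < M → ψ w m = ψ x m) ∧
      (∀ j, j < r → g j = false) ∧ (∃ j, g j = true) ∧ addRow k g x ∈ D' ∧
      (∀ m, M ≤ m → m ∈ b → (1 + ds (ψ x) (ψ (addRow k g x)) m) ^ (4 * 4 ^ k) ≤ L m) := by
    intro k ρ x hx
    have hxU := hD's hx
    obtain ⟨hxD, hxE, hxQ⟩ := hUs hxU
    obtain ⟨N, M, hg⟩ := hxQ k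
    obtain ⟨r1, hr1⟩ := nb2 (U k) (hU k) x (mem_iInter.1 hxU k)
    obtain ⟨r2, hr2⟩ := hEc x hxE (M + k)
    obtain ⟨g, ⟨hg1, hg2⟩, hg3, hg4⟩ := exg _ (inter_mem hg (hD'c x hx k)) (N + (ρ + r1 + r2))
    refine ⟨ρ + r1 + r2, M + k, g, by omega, by omega, fun w hw => hr1 w (hw.mono (by omega)),
      fun w hwE hw m hm => hr2 w hwE (hw.mono (by omega)) m hm, fun j hj => hg3 j (by omega),
      ⟨_, hg4⟩, hg2, fun m hm hmb => hg1 (fun j hj => hg3 j (by omega)) m (by omega) hmb⟩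
  choose! r M g h1 h2 h3 h4 h5 h6 h7 h8 using step
  obtain ⟨x0, hx0⟩ : D'.Nonempty := (dense_of_mem_residual hD'r).nonempty
  -- the recursion
  let F : ℕ → {x : Om // x ∈ D'} × ℕ → {x : Om // x ∈ D'} × ℕ := fun k s =>
    (⟨addRow k (g k s.2 s.1.1) s.1.1, h7 k s.2 s.1.1 s.1.2⟩, r k s.2 s.1.1)
  let st : ℕ → {x : Om // x ∈ D'} × ℕ := fun k => Nat.rec (⟨x0, hx0⟩, 0) F k
  have hst : ∀ k, st (k + 1) = F k (st k) := fun k => rfl
  obtain ⟨X, hX⟩ : ∃ X : ℕ → Om, ∀ k, X k = (st k).1.1 := ⟨_, fun _ => rfl⟩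
  obtain ⟨ρ, hρ⟩ : ∃ ρ : ℕ → ℕ, ∀ k, ρ k = (st k).2 := ⟨_, fun _ => rfl⟩
  have hXD : ∀ k, X k ∈ D' := fun k => by rw [hX]; exact (st k).1.2
  have hXs : ∀ k, X (k + 1) = addRow k (g k (ρ k) (X k)) (X k) := fun k => by
    rw [hX, hX, hρ, hst]
  have hρs : ∀ k, ρ (k + 1) = r k (ρ k) (X k) := fun k => by
    rw [hX, hρ, hρ, hst]
  obtain ⟨G, hG⟩ : ∃ G : ℕ → ℕ → Bool, ∀ k, G k = g k (ρ k) (X k) := ⟨_, fun _ => rfl⟩
  obtain ⟨m', hm'⟩ : ∃ m' : ℕ → ℕ, ∀ k, m' k = M k (ρ k) (X k) := ⟨_, fun _ => rfl⟩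
  have q1 : ∀ k, ρ k ≤ ρ (k + 1) := fun k => by rw [hρs]; exact h1 k _ _ (hXD k)
  have q2 : ∀ k, k ≤ m' k := fun k => by rw [hm']; exact h2 k _ _ (hXD k)
  have q3 : ∀ k w, Ag (ρ (k + 1)) w (X k) → w ∈ U k := fun k => by
    rw [hρs]; exact h3 k _ _ (hXD k)
  have q4 : ∀ k, ∀ w ∈ E, Ag (ρ (k + 1)) w (X k) → ∀ m, m < m' k → ψ w m = ψ (X k) m := fun k => by
    rw [hρs, hm']; exact h4 k _ _ (hXD k)
  have q5 : ∀ k j, j < ρ (k + 1) → G k j = false := fun k => by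
    rw [hρs, hG]; exact h5 k _ _ (hXD k)
  have q6 : ∀ k, ∃ j, G k j = true := fun k => by
    rw [hG]; exact h6 k _ _ (hXD k)
  have q7 : ∀ k, X (k + 1) = addRow k (G k) (X k) := fun k => by rw [hXs, hG]
  have q8 : ∀ k m, m' k ≤ m → m ∈ b →
      (1 + ds (ψ (X k)) (ψ (X (k + 1))) m) ^ (4 * 4 ^ k) ≤ L m := fun k => by
    rw [hXs, hm']; exact h8 k _ _ (hXD k)
  have q9 : ∀ k i j, X (k + 1) i j = if i = k then xor (X k i j) (G k j) else X k i j :=
    fun k i j => by rw [q7]; rfl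
  have hρm : Monotone ρ := monotone_nat_of_le_succ q1
  -- rows do not change later
  have ra : ∀ i d j, X (i + 1 + d) i j = X (i + 1) i j := by
    intro i d j
    induction d with
    | zero => rfl
    | succ d ih =>
      rw [← add_assoc, q9, if_neg (by omega)]
      exact ih
  -- rows do not change before
  have rb : ∀ i k, k ≤ i → ∀ j, X k i j = X 0 i j := by
    intro i k
    induction k with
    | zero => intro _ _; rfl
    | succ k ih =>
      intro hk j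
      rw [q9, if_neg (by omega)]
      exact ih (by omega) j
  -- agreement in columns
  have rc : ∀ k d i j, j < ρ (k + 1) → X (k + d) i j = X k i j := by
    intro k d i j hj
    induction d with
    | zero => rfl
    | succ d ih =>
      have h9 : G (k + d) j = false := q5 _ j (lt_of_lt_of_le hj (hρm (by omega)))
      rw [← add_assoc, q9, h9, Bool.xor_false, ite_self]
      exact ih
  obtain ⟨y, hy⟩ : ∃ y : Om, ∀ i j, y i j = X (i + 1) i j := ⟨_, fun _ _ => rfl⟩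
  have rd : ∀ k i j, j < ρ (k + 1) → y i j = X k i j := by
    intro k i j hj
    rw [hy]
    rcases le_total k (i + 1) with h | h
    · obtain ⟨d, hd⟩ := Nat.exists_eq_add_of_le h
      rw [hd]
      exact rc k d i j hj
    · obtain ⟨d, rfl⟩ := Nat.exists_eq_add_of_le h
      exact (ra i d j).symm
  have hyU : y ∈ ⋂ n, U n := mem_iInter.2 fun k => q3 k y fun i _ j hj => rd k i j hj
  obtain ⟨hyD, hyE, -⟩ := hUs hyU
  have hXE : ∀ k, X k ∈ E := fun k => (hUs (hD's (hXD k))).2.1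
  have hX0D : ∀ k, X k ∈ D := fun k => (hUs (hD's (hXD k))).1
  have s1 : ∀ k m, m < m' k → ψ y m = ψ (X k) m := fun k m hm =>
    q4 k y hyE (fun i _ j hj => rd k i j hj) m hm
  have s2 : ∀ k m, m ∈ b → (1 + ds (ψ (X k)) (ψ (X (k + 1))) m) ^ (4 * 4 ^ k) ≤ L m := by
    intro k m hm
    rcases lt_or_ge m (m' k) with h | h
    · have h9 := q4 k (X (k + 1)) (hXE _) (fun i _ j hj => rc k 1 i j hj) m h
      rw [ds_eq h9.symm]
      simpa using L_pos m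
    · exact q8 k m h hm
  have s3 : ∀ d k m, m ∈ b → (1 + ds (ψ (X k)) (ψ (X (k + d))) m) ^ (4 ^ k) ≤ L m := by
    intro d
    induction d with
    | zero =>
      intro k m _
      rw [add_zero, ds_self]
      simpa using L_pos m
    | succ d ih =>
      intro k m hm
      have h9 := ih (k + 1) m hm
      rw [pow_succ, mul_comm (4 ^ k) 4] at h9
      have e9 : k + (d + 1) = k + 1 + d := by omega
      rw [e9]
      exact pw _ _ _ _ _ (L_pos m) (ds_mul _ (ψ (X (k + 1))) _ m) (s2 k m hm) h9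
  have s4 : ∀ k m, m ∈ b → (1 + ds (ψ (X k)) (ψ y) m) ^ (4 ^ k) ≤ L m := by
    intro k m hm
    have h9 : ψ y m = ψ (X (k + (m + 1))) m :=
      s1 _ m (lt_of_lt_of_le (by omega) (q2 (k + (m + 1))))
    have h10 : ds (ψ (X k)) (ψ y) m = ds (ψ (X k)) (ψ (X (k + (m + 1)))) m := by
      unfold ds; rw [h9]
    rw [h10]
    exact s3 _ _ _ hm
  have hrel : Rel b (ψ (X 0)) (ψ y) := by
    intro K
    have ht : Tl (X 0) (X (2 * K)) := ⟨2 * K, fun i hi => by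
      funext j
      exact (rb i (2 * K) hi j).symm⟩
    obtain ⟨N, hN⟩ := (hiff _ (hX0D 0) _ (hX0D (2 * K))).1 ht (2 * K)
    refine ⟨N, fun m hm hmb => ?_⟩
    refine pw2 _ _ _ _ _ (ds_mul _ (ψ (X (2 * K))) _ m) (hN m hm hmb) ?_
    refine le_trans (Nat.pow_le_pow_right (by omega) ?_) (s4 (2 * K) m hmb)
    exact (Nat.lt_pow_self (by norm_num)).le
  obtain ⟨N, hN⟩ := (hiff _ (hX0D 0) _ hyD).2 hrel
  obtain ⟨j, hj⟩ := q6 N
  have h9 := congrFun (hN N le_rfl) j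
  rw [hy, q9, if_pos rfl, hj, rb N N le_rfl j] at h9
  revert h9
  cases X 0 N j <;> simp

end Pool.Agent.Y461.HK
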