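import Pool.Agent.Y217.HK.Inst

/-!
# Project HK, job HK-4: adjacent values give close images
-/

set_option autoImplicit false

namespace Pool.Agent.Y461.HK.Adj

open MeasureTheory Filter Topology Set
open Pool.Agent.Y217.HK

theorem ds_tri3 (x y z w : Z) (n : ℕ) :
    1 + ds x w n ≤ (1 + ds y x n) * (1 + ds y z n) * (1 + ds z w n) := by
  have h : ds x w n ≤ ds y x n + ds y z n + ds z w n := by unfold ds; omega
  have h2 : (1 + ds y x n) * (1 + ds y z n) * (1 + ds z w n)
      = 1 + (ds y x n + ds y z n + ds z w n) + (ds y x n * ds y z n + ds y x n * ds z w n +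
        ds y z n * ds z w n + ds y x n * ds y z n * ds z w n) := by ring
  rw [h2]
  omega

theorem pw3 (a c d f l e : ℕ) (hl : 1 ≤ l) (h : a ≤ c * d * f) (hc : c ^ (4 * e) ≤ l)
    (hd : d ^ (4 * e) ≤ l) (hf : f ^ (4 * e) ≤ l) : a ^ e ≤ l := by
  by_contra hn
  push Not at hn
  have h1 : a ^ (4 * e) ≤ l * l * l := by
    calc a ^ (4 * e) ≤ (c * d * f) ^ (4 * e) := Nat.pow_le_pow_left h _
      _ = c ^ (4 * e) * d ^ (4 * e) * f ^ (4 * e) := by rw [mul_pow, mul_pow]
      _ ≤ l * l * l := Nat.mul_le_mul (Nat.mul_le_mul hc hd) hf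
  have h2 : a ^ (4 * e) = (a ^ e) ^ 4 := by rw [← pow_mul, mul_comm]
  rw [h2] at h1
  have h3 : l ^ 4 < (a ^ e) ^ 4 := Nat.pow_lt_pow_left hn (by norm_num)
  have h4 : l * l * l ≤ l ^ 4 := by
    calc l * l * l = l ^ 3 := by ring
      _ ≤ l ^ 4 := Nat.pow_le_pow_right hl (by norm_num)
  omega

/-- a point with prescribed values at the places `ν k`, `k ∈ B`, equal to `z` elsewhere -/
theorem exPt (ν : ℕ → ℕ) (hν : Function.Injective ν) (B : Set ℕ) (I : ∀ k, Fin (L (ν k) + 1))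
    (z : Z) : ∃ e : Z, (∀ k ∈ B, e (ν k) = I k) ∧ ∀ t, (¬ ∃ k ∈ B, ν k = t) → e t = z t := by
  have h : ∀ t, ∃ v : Fin (L t + 1), (∀ k ∈ B, ν k = t → (v : ℕ) = (I k : ℕ)) ∧
      ((¬ ∃ k ∈ B, ν k = t) → v = z t) := by
    intro t
    by_cases ht : ∃ k ∈ B, ν k = t
    · obtain ⟨k, hk, rfl⟩ := ht
      refine ⟨I k, fun k' _ h' => ?_, fun hn => absurd ⟨k, hk, rfl⟩ hn⟩
      rw [hν h']
    · exact ⟨z t, fun k hk h' => absurd ⟨k, hk, h'⟩ ht, fun _ => rfl⟩
  choose e he1 he2 using h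
  exact ⟨e, fun k hk => Fin.ext (he1 _ k hk rfl), he2⟩

theorem adj (hA : JArith) (hW : JWin) : JAdj := by
  classical
  intro a b ψ D' z l M hF hred n hn K
  obtain ⟨-, hL1, -, -, -, hL2, -⟩ := hA
  obtain ⟨hput, hwin⟩ := hW b ψ D' z l M hF n hn
  obtain ⟨-, hl, hM, -⟩ := hF
  have hmono : StrictMono n := strictMono_nat_of_lt_succ fun k => by
    have h1 := hl (n k + 1)
    have h2 := hn k
    omega
  have hnk : ∀ k, k ≤ n k := fun k => hmono.id_le k
  have hν : Function.Injective fun k => n (k + 1) := fun k k' h => by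
    have := hmono.injective h
    omega
  by_contra hcon
  push Not at hcon
  obtain ⟨B, hB⟩ : ∃ B : Set ℕ, B = {k | ∃ i j : Fin (L (n (k + 1)) + 1), (j : ℕ) = (i : ℕ) + 1 ∧
      ∃ m, m ∈ b ∧ M (n k + 1) ≤ m ∧ m < M (n (k + 1) + 1) ∧
        L m < (1 + ds (ψ (Function.update z (n (k + 1)) i))
          (ψ (Function.update z (n (k + 1)) j)) m) ^ K} := ⟨_, rfl⟩
  have hBinf : ∀ k0, ∃ k, k0 ≤ k ∧ k ∈ B := by
    intro k0
    obtain ⟨k, hk, i, j, hij, m, h1, h2, h3, h4⟩ := hcon k0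
    exact ⟨k, hk, by rw [hB]; exact ⟨i, j, hij, m, h1, h2, h3, h4⟩⟩
  have hch : ∀ k, ∃ (i j : Fin (L (n (k + 1)) + 1)) (m : ℕ), k ∈ B → ((j : ℕ) = (i : ℕ) + 1 ∧
      m ∈ b ∧ M (n k + 1) ≤ m ∧ m < M (n (k + 1) + 1) ∧
        L m < (1 + ds (ψ (Function.update z (n (k + 1)) i))
          (ψ (Function.update z (n (k + 1)) j)) m) ^ K) := by
    intro k
    by_cases hk : k ∈ B
    · have hk' := hk
      rw [hB] at hk'
      obtain ⟨i, j, hij, m, h⟩ := hk'
      exact ⟨i, j, m, fun _ => ⟨hij, h⟩⟩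
    · exact ⟨0, 0, 0, fun h => absurd h hk⟩
  choose I J m hIJ using hch
  obtain ⟨e, he1, he2⟩ := exPt (fun k => n (k + 1)) hν B I z
  obtain ⟨e', he1', he2'⟩ := exPt (fun k => n (k + 1)) hν B J z
  have hee : ∀ t, ds e e' t ≤ 1 := by
    intro t
    by_cases ht : ∃ k ∈ B, n (k + 1) = t
    · obtain ⟨k, hk, rfl⟩ := ht
      have h1 := he1 k hk
      have h2 := he1' k hk
      have h3 := (hIJ k hk).1
      unfold ds
      rw [h1, h2]
      omega
    · have h1 := he2 t ht
      have h2 := he2' t ht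
      unfold ds
      rw [h1, h2]
      omega
  have hyy : ∀ t, ds (put (Set.range n) z e) (put (Set.range n) z e') t ≤ 1 := by
    intro t
    by_cases ht : t ∈ Set.range n
    · have h1 : put (Set.range n) z e t = e t := by unfold put; simp only [ht, if_true]
      have h2 : put (Set.range n) z e' t = e' t := by unfold put; simp only [ht, if_true]
      have h3 := hee t
      unfold ds at h3 ⊢
      rw [h1, h2]
      exact h3
    · have h1 : put (Set.range n) z e t = z t := by unfold put; simp only [ht, if_false]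
      have h2 : put (Set.range n) z e' t = z t := by unfold put; simp only [ht, if_false]
      unfold ds
      rw [h1, h2]
      omega
  have hra : Rel a (put (Set.range n) z e) (put (Set.range n) z e') := by
    intro K'
    refine ⟨K', fun t ht _ => ?_⟩
    calc (1 + ds (put (Set.range n) z e) (put (Set.range n) z e') t) ^ K'
        ≤ 2 ^ K' := Nat.pow_le_pow_left (by have := hyy t; omega) _
      _ ≤ 2 ^ (2 * (t + 1)) := Nat.pow_le_pow_right (by norm_num) (by omega)
      _ ≤ L t := hL2 t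
  obtain ⟨N, hN⟩ := hred _ (hput e) _ (hput e') hra (4 * K)
  obtain ⟨k, hk1, hk2⟩ := hBinf (N + 4 * K)
  obtain ⟨-, hmb, hm1, hm2, hm3⟩ := hIJ k hk2
  have h1 := hwin e k (m k) hmb hm1 hm2
  have h2 := hwin e' k (m k) hmb hm1 hm2
  have h3 : N ≤ m k := by
    have := hM (n k + 1)
    have := hnk k
    omega
  have h4 := hN (m k) h3 hmb
  have e1 := he1 k hk2
  have e2 := he1' k hk2
  rw [e1] at h1
  rw [e2] at h2
  have h5 : 4 * K ≤ n k + 1 := by
    have := hnk k
    omega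
  have h6 := pw3 _ _ _ _ _ K (hL1 (m k))
    (ds_tri3 (ψ (Function.update z (n (k + 1)) (I k))) (ψ (put (Set.range n) z e))
      (ψ (put (Set.range n) z e')) (ψ (Function.update z (n (k + 1)) (J k))) (m k))
    (le_trans (Nat.pow_le_pow_right (by omega) h5) h1) h4
    (le_trans (Nat.pow_le_pow_right (by omega) h5) h2)
  omega

end Pool.Agent.Y461.HK.Adj
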